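import Pool.Agent.H99.BP.Main

/-!
# MP_6fd33d_al, Q1: the minimal (𝔪, 𝔫)-product need not be the smallest (𝔪, 𝔫)-product

This holds for every pair of infinite cardinals `𝔫 ≤ 𝔪`, already for two factors.
-/

set_option autoImplicit false

open Cardinal

namespace Pool.Agent.Results.MP_6fd33d_al.NotSmallest

open Pool.Agent.H99.BP

/-- For all infinite cardinals `𝔫 ≤ 𝔪` there are two non-degenerate Boolean algebras which have a minimal
`(𝔪, 𝔫)`-product, and an `(𝔪, 𝔫)`-product `Q` of them which does not lie above any minimal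
`(𝔪, 𝔫)`-product `M`; no `(𝔪, 0)`-product at all lies below both `M` and `Q`. -/
theorem result (n m : Cardinal.{0}) (hn : ℵ₀ ≤ n) (hnm : n ≤ m) :
    ∃ (A : Bool → Type) (_ : ∀ t, BooleanAlgebra (A t)), (∀ t, Nontrivial (A t)) ∧
      (∃ M : MProduct m A, M.IsMinimal n) ∧
      ∃ Q : MProduct m A, Q.IsNProduct n ∧ ∀ M : MProduct m A, M.IsMinimal n →
        ¬ M.Below Q ∧ ∀ S : MProduct m A, ¬ (S.Below M ∧ S.Below Q) := by
  have hm : ℵ₀ ≤ m := hn.trans hnm
  refine ⟨fun _ => RO ℝ, fun _ => inferInstance, fun _ => inferInstance,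
    ⟨MP m hm, MP_minimal m n hm hn⟩, QP m hm, fun T' _ => indepOn_bool iQ iQ_indep T', ?_⟩
  intro M hM
  exact ⟨fun h => no_lower n hm M hM M (below_refl M) h,
    fun S h => no_lower n hm M hM S h.1 h.2⟩

end Pool.Agent.Results.MP_6fd33d_al.NotSmallest
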